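import Mathlib

/-! Real inequalities for the recursion (project BT). -/

set_option autoImplicit false

open Filter Topology

namespace Pool.Agent.H894.BT207

theorem ev_pow {e a : ℝ} (he : 0 < e) (ha : 0 < a) : ∀ᶠ δ : ℝ in 𝓝[>] 0, δ ^ e ≤ a := by
  have h1 : Tendsto (fun δ : ℝ => δ ^ e) (𝓝[>] 0) (𝓝 ((0 : ℝ) ^ e)) :=
    (Real.continuousAt_rpow_const 0 e (Or.inr he.le)).tendsto.mono_left nhdsWithin_le_nhds
  rw [Real.zero_rpow he.ne'] at h1
  filter_upwards [h1.eventually_lt_const ha] with δ h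
  exact h.le

theorem ev_neg {e a T : ℝ} (he : 0 < e) (ha : 0 < a) (hT : 0 < T) :
    ∀ᶠ δ : ℝ in 𝓝[>] 0, T ≤ a * δ ^ (-e) := by
  filter_upwards [ev_pow he (div_pos ha hT), self_mem_nhdsWithin] with δ h hδ
  have hδ0 : (0 : ℝ) < δ := hδ
  have h1 : 0 < δ ^ e := Real.rpow_pos_of_pos hδ0 e
  rw [Real.rpow_neg hδ0.le, ← div_eq_mul_inv, le_div_iff₀ h1]
  rw [le_div_iff₀ hT] at h
  linarith

theorem ev_lin {a T : ℝ} (ha : 0 < a) (hT : 0 < T) : ∀ᶠ δ : ℝ in 𝓝[>] 0, T * δ ≤ a := by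
  filter_upwards [ev_pow one_pos (div_pos ha hT)] with δ h
  rw [Real.rpow_one, le_div_iff₀ hT] at h
  linarith

theorem expo1 (b : ℝ) (hb : 0 < b) (hb1 : b ≤ 1) : (1 + b / 8) * b ≤ 2 * b := by
  have h : (1 + b / 8) ≤ 2 := by linarith
  exact mul_le_mul_of_nonneg_right h hb.le

theorem expo2 (b : ℝ) (hb : 0 < b) (hb1 : b ≤ 1) : (1 + b / 8) * (1 + b / 2) ≤ 1 + 3 * b / 4 := by
  have h : b * b ≤ b * 1 := mul_le_mul_of_nonneg_left hb1 hb.le
  linarith

set_option maxHeartbeats 4000000 in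
theorem arith (K₀ B c₁ γ b δ₁ : ℝ) (m : ℕ) (hK : 1 ≤ K₀) (hB : 1 ≤ B) (hc : 0 < c₁) (hγ : 0 < γ)
    (hb : 0 < b) (hb1 : b ≤ 1) (hbγ : 16 * b ≤ γ) (hδ₁ : 0 < δ₁) (hδ₁' : δ₁ ≤ 1) (hm : 1 ≤ m) :
    ∀ᶠ δ : ℝ in 𝓝[>] 0, ∀ δ' R P M : ℝ, 0 < δ' → δ ^ (1 + b / 8) ≤ δ' → δ' ≤ δ → 0 < R → R ≤ 1 →
      R = δ' * P → 0 < P → 1 ≤ M → P ^ γ ≤ M → c₁ * M ≤ R ^ m * P →
      ∃ D : ℝ, D ≤ δ₁ ∧ (2 + K₀ * B) * δ ≤ D ∧ ∀ y : ℝ, 0 < y → D ^ (1 + b) ≤ y ^ (m + 1) →
        y ^ (m + 1) ≤ D → y ≤ R / (2 * K₀ * B) ∧ 2 * K₀ * B ≤ y ^ m * P ∧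
          δ ^ (1 + b) * (B * K₀ * P) ≤ y := by
  have hKB : 1 ≤ K₀ * B := by nlinarith
  set σ : ℝ := 1 / (2 * K₀ * B) with hσ
  have hσ0 : 0 < σ := by positivity
  have hσ1 : σ ≤ 1 := by
    rw [hσ, div_le_one (by positivity)]
    nlinarith
  set g : ℝ := γ / 2 with hg
  have hg0 : 0 < g := by positivity
  set c₃ : ℝ := c₁ ^ g with hc₃
  have hc₃0 : 0 < c₃ := Real.rpow_pos_of_pos hc g
  have e6 := ev_neg (e := g - b / 8) (a := σ ^ (m + 1) * c₁ * c₃) (T := 2 + K₀ * B)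
    (by rw [hg]; linarith) (by positivity) (by positivity)
  have e7 := ev_neg (e := g - 2 * b) (a := σ ^ (2 * m) * c₁ * c₁ ^ b * c₃) (T := 2 * K₀ * B)
    (by rw [hg]; linarith) (by positivity) (by positivity)
  have e8 := ev_pow (e := b / 4) (a := σ ^ 2 * c₁ ^ (b / 2) / (B * K₀)) (by positivity)
    (by positivity)
  have e9 := ev_lin (a := δ₁) (T := 2 + K₀ * B) hδ₁ (by positivity)
  have e10 := ev_lin (a := δ₁ ^ 3) (T := 2 * K₀ * B) (by positivity) (by positivity)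
  have e11 := ev_pow (e := 7 * b / 8) (a := δ₁ ^ 2 / (B * K₀)) (by positivity) (by positivity)
  have e12 := ev_lin (a := 1) (T := 1) one_pos one_pos
  filter_upwards [e6, e7, e8, e9, e10, e11, e12, self_mem_nhdsWithin] with δ h6 h7 h8 h9 h10 h11
    h12 hδ
  have hδ0 : (0 : ℝ) < δ := hδ
  have hδ1 : δ ≤ 1 := by linarith
  intro δ' R P M hδ'0 hδ'1 hδ'2 hR0 hR1 hRP hP0 hM1 hPM hcM
  have hM0 : 0 < M := by linarith
  have f1 : c₁ * M * δ' ≤ R ^ (m + 1) := by
    rw [pow_succ, hRP]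
    rw [hRP] at hcM
    nlinarith
  have f2 : c₁ * δ' ≤ R ^ (m + 1) := by
    refine le_trans ?_ f1
    have : c₁ * δ' * 1 ≤ c₁ * δ' * M := mul_le_mul_of_nonneg_left hM1 (by positivity)
    linarith
  have f3 : c₁ * δ' ≤ R ^ 2 :=
    f2.trans (pow_le_pow_of_le_one hR0.le hR1 (by omega))
  have f4 : c₁ / δ ≤ P ^ 2 := by
    rw [div_le_iff₀ hδ0]
    rw [hRP] at f3
    have h1 : c₁ ≤ P ^ 2 * δ' := by
      by_contra hcon
      push Not at hcon
      have : δ' * (P ^ 2 * δ') < δ' * c₁ := mul_lt_mul_of_pos_left hcon hδ'0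
      nlinarith
    refine h1.trans ?_
    exact mul_le_mul_of_nonneg_left hδ'2 (by positivity)
  have f5 : c₃ * δ ^ (-g) ≤ M := by
    refine le_trans ?_ hPM
    have h1 : P ^ γ = (P ^ 2) ^ g := by
      rw [← Real.rpow_natCast, ← Real.rpow_mul hP0.le]
      congr 1
      rw [hg]
      push_cast
      ring
    rw [h1, hc₃, Real.rpow_neg hδ0.le, ← div_eq_mul_inv, ← Real.div_rpow hc.le hδ0.le]
    exact Real.rpow_le_rpow (by positivity) f4 hg0.le
  have hσR : 0 < σ * R := by positivity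
  have hσRe : R / (2 * K₀ * B) = σ * R := by
    rw [hσ]
    ring
  rw [hσRe]
  by_cases hcase : (σ * R) ^ (m + 1) ≤ δ₁
  · refine ⟨(σ * R) ^ (m + 1), hcase, ?_, ?_⟩
    · have g1 : σ ^ (m + 1) * (c₁ * (c₃ * δ ^ (-g)) * δ ^ (1 + b / 8)) ≤ (σ * R) ^ (m + 1) := by
        rw [mul_pow]
        refine mul_le_mul_of_nonneg_left (le_trans ?_ f1) (by positivity)
        exact mul_le_mul (mul_le_mul_of_nonneg_left f5 hc.le) hδ'1 (by positivity) (by positivity)
      refine le_trans ?_ g1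
      have g2 : δ ^ (-g) * δ ^ (1 + b / 8) = δ ^ (-(g - b / 8)) * δ := by
        have h2 : δ ^ (-(g - b / 8)) * δ = δ ^ (-(g - b / 8)) * δ ^ (1 : ℝ) := by
          rw [Real.rpow_one]
        rw [h2, ← Real.rpow_add hδ0, ← Real.rpow_add hδ0]
        congr 1
        ring
      have g3 : σ ^ (m + 1) * (c₁ * (c₃ * δ ^ (-g)) * δ ^ (1 + b / 8)) =
          σ ^ (m + 1) * c₁ * c₃ * (δ ^ (-g) * δ ^ (1 + b / 8)) := by ring
      rw [g3, g2, ← mul_assoc]
      exact mul_le_mul_of_nonneg_right h6 hδ0.le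
    · intro y hy0 hy1 hy2
      have i1 : y ≤ σ * R := le_of_pow_le_pow_left₀ (by omega) hσR.le hy2
      have i2 : (σ * R) ^ (1 + b) ≤ y := by
        refine le_of_pow_le_pow_left₀ (n := m + 1) (by omega) hy0.le (le_trans (le_of_eq ?_) hy1)
        rw [← Real.rpow_natCast ((σ * R) ^ (1 + b)), ← Real.rpow_mul hσR.le,
          ← Real.rpow_natCast (σ * R), ← Real.rpow_mul hσR.le, mul_comm (1 + b)]
      have i3 : (σ * R) ^ (1 + b) = σ * R * (σ ^ b * R ^ b) := by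
        rw [Real.rpow_add hσR, Real.rpow_one, Real.mul_rpow hσ0.le hR0.le]
      have i4 : σ ≤ σ ^ b := by
        have := Real.rpow_le_rpow_of_exponent_ge hσ0 hσ1 hb1
        rwa [Real.rpow_one] at this
      have hRb0 : 0 < R ^ b := Real.rpow_pos_of_pos hR0 b
      have hRb1 : R ^ b ≤ 1 := Real.rpow_le_one hR0.le hR1 hb.le
      have i5 : σ * R * (σ * R ^ b) ≤ y := by
        refine le_trans ?_ i2
        rw [i3]
        refine mul_le_mul_of_nonneg_left (mul_le_mul_of_nonneg_right i4 hRb0.le) hσR.le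
      refine ⟨i1, ?_, ?_⟩
      · have j1 : (σ * R * (σ * R ^ b)) ^ m ≤ y ^ m := pow_le_pow_left₀ (by positivity) i5 m
        have j2 : (σ * R * (σ * R ^ b)) ^ m = σ ^ (2 * m) * R ^ m * (R ^ b) ^ m := by
          rw [mul_pow, mul_pow, mul_pow, two_mul, pow_add]
          ring
        have j3 : c₁ ^ b * δ ^ (2 * b) ≤ (R ^ b) ^ m := by
          have k1 : (R ^ b) ^ (m + 1) ≤ (R ^ b) ^ m :=
            pow_le_pow_of_le_one hRb0.le hRb1 (by omega)
          refine le_trans ?_ k1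
          have k2 : (R ^ b) ^ (m + 1) = (R ^ (m + 1)) ^ b := by
            rw [← Real.rpow_natCast (R ^ b), ← Real.rpow_mul hR0.le, ← Real.rpow_natCast R,
              ← Real.rpow_mul hR0.le, mul_comm b]
          rw [k2]
          have k3 : (c₁ * δ') ^ b ≤ (R ^ (m + 1)) ^ b :=
            Real.rpow_le_rpow (by positivity) f2 hb.le
          refine le_trans ?_ k3
          rw [Real.mul_rpow hc.le hδ'0.le]
          refine mul_le_mul_of_nonneg_left ?_ (by positivity)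
          have k4 : (δ ^ (1 + b / 8)) ^ b ≤ δ' ^ b :=
            Real.rpow_le_rpow (by positivity) hδ'1 hb.le
          refine le_trans ?_ k4
          rw [← Real.rpow_mul hδ0.le]
          exact Real.rpow_le_rpow_of_exponent_ge hδ0 hδ1 (expo1 b hb hb1)
        have j4 : σ ^ (2 * m) * (c₁ * (c₃ * δ ^ (-g))) * (c₁ ^ b * δ ^ (2 * b)) ≤ y ^ m * P := by
          have k1 : y ^ m * P ≥ σ ^ (2 * m) * R ^ m * (R ^ b) ^ m * P := by
            rw [← j2]
            exact mul_le_mul_of_nonneg_right j1 hP0.le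
          refine le_trans ?_ k1
          have k2 : σ ^ (2 * m) * R ^ m * (R ^ b) ^ m * P =
              σ ^ (2 * m) * (R ^ m * P) * (R ^ b) ^ m := by ring
          rw [k2]
          refine mul_le_mul (mul_le_mul_of_nonneg_left ?_ (by positivity)) j3 (by positivity)
            (by positivity)
          exact (mul_le_mul_of_nonneg_left f5 hc.le).trans hcM
        refine le_trans ?_ j4
        have j5 : σ ^ (2 * m) * (c₁ * (c₃ * δ ^ (-g))) * (c₁ ^ b * δ ^ (2 * b)) =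
            σ ^ (2 * m) * c₁ * c₁ ^ b * c₃ * (δ ^ (-g) * δ ^ (2 * b)) := by ring
        have j6 : δ ^ (-g) * δ ^ (2 * b) = δ ^ (-(g - 2 * b)) := by
          rw [← Real.rpow_add hδ0]
          congr 1
          ring
        rw [j5, j6]
        exact h7
      · refine le_trans ?_ i5
        have k1 : c₁ ^ (b / 2) * δ' ^ (b / 2) ≤ R ^ b := by
          rw [← Real.mul_rpow hc.le hδ'0.le]
          have : R ^ b = (R ^ 2) ^ (b / 2) := by
            rw [← Real.rpow_natCast, ← Real.rpow_mul hR0.le]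
            congr 1
            push_cast
            ring
          rw [this]
          exact Real.rpow_le_rpow (by positivity) f3 (by positivity)
        have k2 : δ ^ (1 + 3 * b / 4) ≤ δ' * δ' ^ (b / 2) := by
          have l1 : δ' * δ' ^ (b / 2) = δ' ^ (1 + b / 2) := by
            rw [Real.rpow_add hδ'0, Real.rpow_one]
          rw [l1]
          have l2 : (δ ^ (1 + b / 8)) ^ (1 + b / 2) ≤ δ' ^ (1 + b / 2) :=
            Real.rpow_le_rpow (by positivity) hδ'1 (by positivity)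
          refine le_trans ?_ l2
          rw [← Real.rpow_mul hδ0.le]
          exact Real.rpow_le_rpow_of_exponent_ge hδ0 hδ1 (expo2 b hb hb1)
        have k3 : δ ^ (1 + b) = δ ^ (1 + 3 * b / 4) * δ ^ (b / 4) := by
          rw [← Real.rpow_add hδ0]
          congr 1
          ring
        have hBK : 0 < B * K₀ := by positivity
        rw [le_div_iff₀ hBK] at h8
        have k4 : δ ^ (1 + b) * (B * K₀) ≤ σ ^ 2 * (δ' * R ^ b) := by
          have l1 : δ ^ (1 + b) * (B * K₀) ≤ δ ^ (1 + 3 * b / 4) * (σ ^ 2 * c₁ ^ (b / 2)) := by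
            rw [k3, mul_assoc]
            exact mul_le_mul_of_nonneg_left h8 (by positivity)
          have l2 : δ ^ (1 + 3 * b / 4) * (σ ^ 2 * c₁ ^ (b / 2)) ≤
              δ' * δ' ^ (b / 2) * (σ ^ 2 * c₁ ^ (b / 2)) :=
            mul_le_mul_of_nonneg_right k2 (by positivity)
          have l3 : δ' * δ' ^ (b / 2) * (σ ^ 2 * c₁ ^ (b / 2)) =
              σ ^ 2 * (δ' * (c₁ ^ (b / 2) * δ' ^ (b / 2))) := by ring
          refine (l1.trans l2).trans ?_
          rw [l3]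
          exact mul_le_mul_of_nonneg_left (mul_le_mul_of_nonneg_left k1 hδ'0.le) (by positivity)
        calc δ ^ (1 + b) * (B * K₀ * P) = δ ^ (1 + b) * (B * K₀) * P := by ring
          _ ≤ σ ^ 2 * (δ' * R ^ b) * P := mul_le_mul_of_nonneg_right k4 hP0.le
          _ = σ * (δ' * P) * (σ * R ^ b) := by ring
          _ = σ * R * (σ * R ^ b) := by rw [← hRP]
  · rw [not_le] at hcase
    refine ⟨δ₁, le_rfl, h9, ?_⟩
    intro y hy0 hy1 hy2
    have i1 : y ≤ σ * R := le_of_pow_le_pow_left₀ (n := m + 1) (by omega) hσR.le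
      (hy2.trans hcase.le)
    have hy3 : y ≤ 1 := i1.trans (mul_le_one₀ hσ1 hR0.le hR1)
    have i2 : δ₁ ^ 2 ≤ y ^ (m + 1) := by
      refine le_trans ?_ hy1
      rw [← Real.rpow_natCast]
      refine Real.rpow_le_rpow_of_exponent_ge hδ₁ hδ₁' ?_
      push_cast
      linarith
    have i3 : δ₁ ^ 2 ≤ y ^ m := i2.trans (pow_le_pow_of_le_one hy0.le hy3 (by omega))
    have i4 : δ₁ ^ 2 ≤ y := by
      refine i2.trans ?_
      calc y ^ (m + 1) ≤ y ^ 1 := pow_le_pow_of_le_one hy0.le hy3 (by omega)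
        _ = y := pow_one y
    have i5 : δ₁ ≤ R := by
      refine hcase.le.trans ?_
      calc (σ * R) ^ (m + 1) ≤ R ^ (m + 1) :=
            pow_le_pow_left₀ hσR.le (mul_le_of_le_one_left hR0.le hσ1) _
        _ ≤ R ^ 1 := pow_le_pow_of_le_one hR0.le hR1 (by omega)
        _ = R := pow_one R
    have i6 : δ₁ ≤ δ * P := by
      refine i5.trans ?_
      rw [hRP]
      exact mul_le_mul_of_nonneg_right hδ'2 hP0.le
    refine ⟨i1, ?_, ?_⟩
    · have j1 : δ₁ ^ 2 * P ≤ y ^ m * P := mul_le_mul_of_nonneg_right i3 hP0.le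
      refine le_trans ?_ j1
      by_contra hcon
      rw [not_le] at hcon
      have j2 : δ₁ ^ 2 * δ₁ ≤ δ₁ ^ 2 * (δ * P) := mul_le_mul_of_nonneg_left i6 (by positivity)
      have j3 : δ * (δ₁ ^ 2 * P) < δ * (2 * K₀ * B) := mul_lt_mul_of_pos_left hcon hδ0
      nlinarith
    · refine le_trans ?_ i4
      have hBK : 0 < B * K₀ := by positivity
      rw [le_div_iff₀ hBK] at h11
      have j1 : δ ^ (1 + b) = δ ^ (7 * b / 8) * δ ^ (1 + b / 8) := by
        rw [← Real.rpow_add hδ0]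
        congr 1
        ring
      have j2 : δ ^ (1 + b / 8) * P ≤ 1 := by
        refine le_trans (mul_le_mul_of_nonneg_right hδ'1 hP0.le) ?_
        rw [← hRP]
        exact hR1
      calc δ ^ (1 + b) * (B * K₀ * P) = δ ^ (7 * b / 8) * (B * K₀) * (δ ^ (1 + b / 8) * P) := by
            rw [j1]; ring
        _ ≤ δ₁ ^ 2 * 1 := mul_le_mul h11 j2 (by positivity) (by positivity)
        _ = δ₁ ^ 2 := mul_one _

end Pool.Agent.H894.BT207
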