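import Pool.Agent.H894.BT207.VT2

/-! Project BT: the recursion. -/

set_option autoImplicit false

open Topology Filter Metric Set

namespace Pool.Agent.H894.BT207

open Pool.Agent.H211.HY Pool.Agent.H207.BT

theorem base {k : ℕ} {z : Fin k → ℕ → ℂ} {RP : Fin k → ℕ → (Fin k → ℂ) → ℂ → Prop}
    {K δ δ₁ e ρ₁ L b : ℝ} {i : Fin k} (hb : 0 < b) (he : 0 < e) (h1 : e ≤ δ) (h2 : δ ≤ 2 * e)
    (hδ₁ : δ ≤ δ₁) (hδ1 : δ₁ ≤ 1) (h8 : δ₁ ^ b ≤ 1 / 8) (u : (Fin k → ℂ) → ℂ)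
    (u1 : e / 4 ≤ ‖u 0 - z i 0‖) (u2 : ‖u 0 - z i 0‖ ≤ e) (u3 : IsT u ρ₁ L)
    (u4 : ∀ s ∈ ball (0 : Fin k → ℂ) ρ₁, RP i 0 s (u s)) (hρ : 1 / ρ₁ ≤ K) (hρ₁ : 0 < ρ₁)
    (hL : L ≤ K) (hK : 1 ≤ K) : VT z RP b K i δ := by
  have hδ : 0 < δ := he.trans_le h1
  have hsub : ball (0 : Fin k → ℂ) (δ ^ (1 + b) / K) ⊆ ball 0 ρ₁ := by
    refine ball_subset_ball ?_
    rw [div_le_iff₀ (by linarith)]
    rw [div_le_iff₀ hρ₁] at hρ
    have : δ ^ (1 + b) ≤ 1 := Real.rpow_le_one hδ.le (hδ₁.trans hδ1) (by linarith)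
    linarith
  refine ⟨u, ?_, u2.trans h1, ?_, fun s hs => u4 s (hsub hs)⟩
  · refine le_trans ?_ u1
    rw [Real.rpow_add hδ, Real.rpow_one]
    have e1 : δ ^ b ≤ 1 / 8 := (Real.rpow_le_rpow hδ.le hδ₁ hb.le).trans h8
    calc δ * δ ^ b ≤ (2 * e) * (1 / 8) :=
          mul_le_mul h2 e1 (Real.rpow_nonneg hδ.le _) (by linarith)
      _ = e / 4 := by ring
  · intro s hs s' hs'
    exact (u3 s (hsub hs) s' (hsub hs')).trans (mul_le_mul_of_nonneg_right hL (norm_nonneg _))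

set_option maxHeartbeats 4000000 in
theorem t_VT (h1 : Pool.Agent.H207.BT.S_PULL) (h2 : Pool.Agent.H207.BT.S_SCALE3) :
    Pool.Agent.H207.BT.S_VT := by
  intro k f v z x ρ C c μ κ m RP η B S β hβ
  rcases isEmpty_or_nonempty (Fin k) with hk | ⟨⟨i₀⟩⟩
  · exact ⟨1, one_pos, 1, le_rfl, fun i => isEmptyElim i⟩
  have hg := S.good
  have hC : 1 ≤ C := (hg i₀).C1
  have hc : 0 < c := (hg i₀).c0
  have hμ : 1 < μ := (hg i₀).μ1
  have hρ : 0 < ρ := (hg i₀).ρ0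
  have hη := S.η0
  have hB := S.B1
  have hB0 : 0 < B := by linarith
  obtain ⟨γ, hγ, hγμ⟩ : ∃ γ > (0 : ℝ), (C + 1) ^ γ = μ :=
    ⟨Real.logb (C + 1) μ, Real.logb_pos (by linarith) hμ,
      Real.rpow_logb (by linarith) (by linarith) (by linarith)⟩
  obtain ⟨b, hb, hbβ, hbγ, hb1⟩ : ∃ b > (0 : ℝ), b ≤ β ∧ 16 * b ≤ γ ∧ b ≤ 1 := by
    refine ⟨min β (min (γ / 16) 1), lt_min hβ (lt_min (by positivity) one_pos),
      min_le_left _ _, ?_, (min_le_right _ _).trans (min_le_right _ _)⟩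
    have := (min_le_right β (min (γ / 16) 1)).trans (min_le_left _ _)
    linarith
  obtain ⟨K₀, hK₀, θ₁, hθ₁, r₀, hr₀, N₀, hPB₁⟩ := uPB h1 f v z x ρ C c μ κ hg
  have hK₀0 : 0 < K₀ := by linarith
  obtain ⟨θ, hθ, hθθ, hCθ⟩ : ∃ θ > (0 : ℝ), θ ≤ θ₁ ∧ C * θ ≤ 1 := by
    refine ⟨min θ₁ (1 / C), lt_min hθ₁ (by positivity), min_le_left _ _, ?_⟩
    have := mul_le_mul_of_nonneg_left (min_le_right θ₁ (1 / C)) (by linarith : 0 ≤ C)
    rwa [mul_one_div_cancel (by linarith)] at this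
  have hPB : ∀ i, PB (f i) (z i) (x i) ρ C K₀ θ r₀ N₀ :=
    fun i => (hPB₁ i).mono le_rfl hθθ le_rfl le_rfl
  have hpc : ∀ i n, c ≤ ‖DD (f i) (z i) n‖ := fun i n => by
    refine le_trans ?_ ((hg i).gr n)
    have := one_le_pow₀ hμ.le (n := n)
    have := mul_le_mul_of_nonneg_left this hc.le
    linarith only [this]
  have hA : 0 < 2 * K₀ * B := by positivity
  have hsc : ∀ i, ∃ ε > (0 : ℝ), ∃ r₀ > (0 : ℝ), ∀ r : ℝ, 0 < r → r ≤ r₀ →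
      ∃ r' : ℝ, r ^ (1 + b / 8) ≤ r' ∧ r' ≤ r ∧ ∃ N : ℕ,
        ∑ n ∈ Finset.range N, r' * ‖DD (f i) (z i) n‖ / x i n ≤ θ ∧
          (ε ≤ r' * ‖DD (f i) (z i) N‖ ∨ 2 * K₀ * B * x i N ≤ r' * ‖DD (f i) (z i) N‖) :=
    fun i => h2 C c μ (fun n => ‖DD (f i) (z i) n‖) (x i) hC hc hμ
      (by simp [(growth (hg i)).1]) (hg i).gr (hg i).xx (growth (hg i)).2.1 (b / 8)
      (by positivity) θ hθ (2 * K₀ * B) hA
  choose εs hεs rs hrs hsc using hsc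
  obtain ⟨ε₂, hε₂, hε₂'⟩ := pos_lower εs hεs
  obtain ⟨r₁, hr₁, hr₁'⟩ := pos_lower rs hrs
  obtain ⟨ε₀, hε₀, hε₀2, hε₀η, hε₀1⟩ : ∃ ε₀ > (0 : ℝ), ε₀ ≤ ε₂ ∧ ε₀ ≤ η ∧ ε₀ ≤ 1 :=
    ⟨min ε₂ (min η 1), lt_min hε₂ (lt_min hη one_pos), min_le_left _ _,
      (min_le_right _ _).trans (min_le_left _ _), (min_le_right _ _).trans (min_le_right _ _)⟩
  obtain ⟨ρ₁, hρ₁, L₀, hfar⟩ := S.far (ε₀ / K₀) (by positivity)
    ((div_le_self hε₀.le hK₀).trans hε₀1)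
  obtain ⟨δ₁, hδ₁, hδ₁1, h8⟩ : ∃ δ₁ > (0 : ℝ), δ₁ ≤ 1 ∧ δ₁ ^ b ≤ 1 / 8 := by
    have e1 := (ev_pow hb (by norm_num : (0 : ℝ) < 1 / 8)).and
      ((ev_lin (a := 1) (T := 1) one_pos one_pos).and self_mem_nhdsWithin)
    obtain ⟨δ, a1, a2, a3⟩ := e1.exists
    exact ⟨δ, a3, by linarith, a1⟩
  have ev : ∀ᶠ δ : ℝ in 𝓝[>] 0, (∀ l : Fin k, ∀ δ' R P M : ℝ, 0 < δ' → δ ^ (1 + b / 8) ≤ δ' →
      δ' ≤ δ → 0 < R → R ≤ 1 →
      R = δ' * P → 0 < P → 1 ≤ M → P ^ γ ≤ M → (c / B) * M ≤ R ^ m l * P →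
      ∃ D : ℝ, D ≤ δ₁ ∧ (2 + K₀ * B) * δ ≤ D ∧ ∀ y : ℝ, 0 < y → D ^ (1 + b) ≤ y ^ (m l + 1) →
        y ^ (m l + 1) ≤ D → y ≤ R / (2 * K₀ * B) ∧ 2 * K₀ * B ≤ y ^ m l * P ∧
          δ ^ (1 + b) * (B * K₀ * P) ≤ y) ∧
      (∀ (i : Fin k) (n : Fin N₀), ‖DD (f i) (z i) n‖ * δ ≤ ε₀ / 2 ∧
        ‖DD (f i) (z i) n‖ * δ ≤ K₀ * B * x i n) ∧
      (1 * δ ≤ 1 ∧ 1 * δ ≤ r₀ ∧ 1 * δ ≤ r₁ ∧ 1 * δ ≤ ρ ∧ 1 * δ ≤ ρ₁) ∧
      (δ ^ (7 * b / 8) ≤ 1 / K₀ ∧ δ ^ (7 * b / 8) ≤ ε₀ / K₀ / 4 / K₀) ∧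
      (K₀ * |L₀| + 1) * δ ≤ ε₀ := by
    have v1 := eventually_all.2 fun l : Fin k => arith K₀ B (c / B) γ b δ₁ (m l) hK₀ hB
      (div_pos hc hB0) hγ hb hb1 hbγ hδ₁ hδ₁1 (S.mpos l)
    have v2 : ∀ᶠ δ : ℝ in 𝓝[>] 0, ∀ (i : Fin k) (n : Fin N₀), ‖DD (f i) (z i) n‖ * δ ≤ ε₀ / 2 ∧
        ‖DD (f i) (z i) n‖ * δ ≤ K₀ * B * x i n := by
      refine eventually_all.2 fun i => eventually_all.2 fun n => ?_
      exact (ev_lin (half_pos hε₀) (hc.trans_le (hpc i n))).and (ev_lin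
        (mul_pos (mul_pos hK₀0 hB0) ((hg i).xx n).1) (hc.trans_le (hpc i n)))
    have v3 := ((ev_lin one_pos one_pos).and ((ev_lin hr₀ one_pos).and
        ((ev_lin hr₁ one_pos).and ((ev_lin hρ one_pos).and (ev_lin hρ₁ one_pos)))))
    have v4 := (ev_pow (e := 7 * b / 8) (a := 1 / K₀) (by positivity) (by positivity)).and
      (ev_pow (e := 7 * b / 8) (a := ε₀ / K₀ / 4 / K₀) (by positivity) (by positivity))
    have v5 := ev_lin (a := ε₀) (T := K₀ * |L₀| + 1) hε₀ (by positivity)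
    exact v1.and (v2.and (v3.and (v4.and v5)))
  obtain ⟨δc, hδc, hδc'⟩ := mem_nhdsGT_iff_exists_Ioo_subset.1 ev
  have hδc0 : 0 < δc := hδc
  obtain ⟨δb, hδb, hδb1, hδb2⟩ : ∃ δb > (0 : ℝ), δb ≤ δc ∧ δb ≤ δ₁ :=
    ⟨min δc δ₁, lt_min hδc0 hδ₁, min_le_left _ _, min_le_right _ _⟩
  have hfj : ∀ j : ℕ, 0 < δ₁ / 2 ^ j ∧ δ₁ / 2 ^ j ≤ 1 := fun j =>
    ⟨by positivity, (div_le_self hδ₁.le (one_le_pow₀ (by norm_num))).trans hδ₁1⟩
  choose ρj hρj Lj hfarj using fun j : ℕ => S.far (δ₁ / 2 ^ j) (hfj j).1 (hfj j).2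
  obtain ⟨J, hJ⟩ := exists_pow_lt_of_lt_one (div_pos hδb hδ₁) (by norm_num : (1 / 2 : ℝ) < 1)
  have hJ' : δ₁ / 2 ^ J ≤ δb := by
    rw [lt_div_iff₀ hδ₁, one_div, inv_pow] at hJ
    rw [div_eq_inv_mul]
    exact hJ.le
  obtain ⟨K1, hK1, hK1'⟩ := upper (fun j : Fin (J + 1) => |Lj j| + 1 / ρj j)
  obtain ⟨K, hKK1, hKK2, hKK3⟩ : ∃ K : ℝ, K1 ≤ K ∧ 2 * K₀ ≤ K ∧ K₀ + K₀ * |L₀| / c ≤ K := by
    have e1 : 0 ≤ K₀ * |L₀| / c := by positivity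
    exact ⟨K1 + 2 * K₀ + (K₀ + K₀ * |L₀| / c), by linarith, by linarith, by linarith⟩
  have hK : 1 ≤ K := hK1.trans hKK1
  have hbase : ∀ (i : Fin k) (δ : ℝ), δb ≤ δ → δ ≤ δ₁ → VT z RP b K i δ := by
    intro i δ a1 a2
    classical
    have hex : ∃ j : ℕ, δ₁ / 2 ^ j ≤ δ := ⟨J, hJ'.trans a1⟩
    have hj1 := Nat.find_spec hex
    have hj2 : Nat.find hex ≤ J := Nat.find_min' hex (hJ'.trans a1)
    have hj3 : δ ≤ 2 * (δ₁ / 2 ^ Nat.find hex) := by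
      rcases hn : Nat.find hex with _ | j'
      · simp
        linarith
      · have := Nat.find_min hex (m := j') (by omega)
        rw [not_le] at this
        refine this.le.trans (le_of_eq ?_)
        rw [pow_succ]
        field_simp
    obtain ⟨q, q1, q2, q3, q4⟩ := hfarj (Nat.find hex) i 0
    have e1 := hK1' ⟨Nat.find hex, by omega⟩
    have e2 : |Lj (Nat.find hex)| + 1 / ρj (Nat.find hex) ≤ K := le_trans e1 hKK1
    have e3 : 0 < 1 / ρj (Nat.find hex) := one_div_pos.2 (hρj _)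
    have e4 := abs_nonneg (Lj (Nat.find hex))
    have e5 := le_abs_self (Lj (Nat.find hex))
    exact base hb (hfj _).1 hj1 hj3 a2 hδ₁1 h8 q q2 q3 q1 q4 (by linarith) (hρj _) (by linarith) hK
  have hstep : ∀ (i : Fin k) (δ : ℝ), 0 < δ → δ < δb →
      (∀ (l : Fin k) (D : ℝ), 2 * δ ≤ D → D ≤ δ₁ → VT z RP b K l D) → VT z RP b K i δ := by
    intro i δ hδ hδδ ih
    obtain ⟨c1, c2, ⟨c3, c4, c5, c6, c7⟩, ⟨c8, c9⟩, c10⟩ := hδc' ⟨hδ, hδδ.trans_le hδb1⟩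
    rw [one_mul] at c3 c4 c5 c6 c7
    obtain ⟨δ', s1, s2, N, s3, s4⟩ := hsc i δ hδ (c5.trans (hr₁' i))
    have hδ' : 0 < δ' := lt_of_lt_of_le (Real.rpow_pos_of_pos hδ _) s1
    have hR1 := Rle (hg i) hCθ hδ' (s2.trans c3) s3
    have hP0 : 0 < ‖DD (f i) (z i) N‖ := hc.trans_le (hpc i N)
    have hR0 : 0 < δ' * ‖DD (f i) (z i) N‖ := mul_pos hδ' hP0
    have hxN := (hg i).xx N
    have s4' : ε₀ ≤ δ' * ‖DD (f i) (z i) N‖ ∨
        2 * K₀ * B * x i N ≤ δ' * ‖DD (f i) (z i) N‖ := by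
      rcases s4 with h | h
      · exact Or.inl ((hε₀2.trans (hε₂' i)).trans h)
      · exact Or.inr h
    have hN : N₀ ≤ N := by
      by_contra hcon
      rw [not_le] at hcon
      obtain ⟨d1, d2⟩ := c2 i ⟨N, hcon⟩
      have d3 : δ' * ‖DD (f i) (z i) N‖ ≤ ‖DD (f i) (z i) N‖ * δ := by
        rw [mul_comm]
        exact mul_le_mul_of_nonneg_left s2 hP0.le
      have d1' : ‖DD (f i) (z i) N‖ * δ ≤ ε₀ / 2 := d1
      have d2' : ‖DD (f i) (z i) N‖ * δ ≤ K₀ * B * x i N := d2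
      have d4 : 0 < K₀ * B * x i N := mul_pos (mul_pos hK₀0 hB0) hxN.1
      rcases s4' with h | h
      · linarith only [h, d3, d1', hε₀]
      · linarith only [h, d3, d2', d4]
    have c8' : K₀ * δ ^ (7 * b / 8) ≤ 1 := by
      rw [le_div_iff₀ hK₀0] at c8
      linarith only [c8]
    have c9' : K₀ * δ ^ (7 * b / 8) ≤ ε₀ / K₀ / 4 := by
      rw [le_div_iff₀ hK₀0] at c9
      linarith only [c9]
    by_cases hcase : ε₀ ≤ δ' * ‖DD (f i) (z i) N‖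
    · obtain ⟨u, u1, u2, u3, u4⟩ := hfar i N
      refine step_far (L := |L₀|) (hPB i) S.tran hK₀ hδ c3 hb hδ' s2 s1 (s2.trans c4) hN s3 hK
        (abs_nonneg _) hc u (hpc i N) hε₀ hcase hR1 u2 u3 ?_ u4 c9' c8' ?_ c7 c6 hKK3
      · intro s hs s' hs'
        exact (u1 s hs s' hs').trans (mul_le_mul_of_nonneg_right (le_abs_self _) (norm_nonneg _))
      · linarith only [c10, hδ]
    · have hcl := s4'.resolve_left hcase
      rw [not_le] at hcase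
      have hx1 : x i N ≤ δ' * ‖DD (f i) (z i) N‖ := by
        refine le_trans ?_ hcl
        have e1 : 1 ≤ 2 * K₀ * B := by
          have : 1 * 1 ≤ K₀ * B := mul_le_mul hK₀ hB zero_le_one hK₀0.le
          linarith only [this]
        have e2 := mul_le_mul_of_nonneg_right e1 hxN.1.le
        linarith only [e2]
      obtain ⟨l, l1, l2⟩ := S.close i N (hx1.trans (hcase.le.trans hε₀η))
      have hM : 1 ≤ μ ^ N := one_le_pow₀ hμ.le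
      have hPM : ‖DD (f i) (z i) N‖ ^ γ ≤ μ ^ N := by
        have e1 := (growth (hg i)).2.2 N
        refine (Real.rpow_le_rpow hP0.le e1 hγ.le).trans (le_of_eq ?_)
        rw [← hγμ, ← Real.rpow_natCast, ← Real.rpow_natCast, ← Real.rpow_mul (by linarith),
          ← Real.rpow_mul (by linarith), mul_comm]
      have hcM : (c / B) * μ ^ N ≤ (δ' * ‖DD (f i) (z i) N‖) ^ m l * ‖DD (f i) (z i) N‖ := by
        have e1 : c * μ ^ (N + 1) ≤ B * x i N ^ m l * ‖DD (f i) (z i) N‖ :=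
          ((hg i).gr (N + 1)).trans l1
        have e2 : c * μ ^ N ≤ c * μ ^ (N + 1) := by
          refine mul_le_mul_of_nonneg_left ?_ hc.le
          exact pow_le_pow_right₀ hμ.le (Nat.le_succ N)
        have e3 : x i N ^ m l ≤ (δ' * ‖DD (f i) (z i) N‖) ^ m l :=
          pow_le_pow_left₀ hxN.1.le hx1 _
        have e4 : B * x i N ^ m l * ‖DD (f i) (z i) N‖ ≤
            B * (δ' * ‖DD (f i) (z i) N‖) ^ m l * ‖DD (f i) (z i) N‖ :=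
          mul_le_mul_of_nonneg_right (mul_le_mul_of_nonneg_left e3 hB0.le) hP0.le
        rw [div_mul_eq_mul_div, div_le_iff₀ hB0]
        linarith only [e1, e2, e4]
      obtain ⟨D, d1, d2, d3⟩ := c1 l δ' (δ' * ‖DD (f i) (z i) N‖) ‖DD (f i) (z i) N‖ (μ ^ N) hδ'
        s1 s2 hR0 hR1 rfl hP0 hM hPM hcM
      refine step_close (m := m l) (l := l) (D := D) (hPB i) S.tran l2 hK₀ hB hδ c3 hb hδ' s2 s1
        (s2.trans c4) hN s3 hKK2 hP0 hcl (hcase.le.trans hε₀η) (ih l D ?_ d1) d2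
        (fun y hy h h' => d3 y hy h h') c8' c6
      refine le_trans ?_ d2
      have e1 : 0 < K₀ * B * δ := mul_pos (mul_pos hK₀0 hB0) hδ
      linarith only [e1]
  have hall : ∀ (n : ℕ) (i : Fin k) (δ : ℝ), δb / 2 ^ n ≤ δ → δ ≤ δ₁ → VT z RP b K i δ := by
    intro n
    induction n with
    | zero =>
      intro i δ a1 a2
      exact hbase i δ (by simpa using a1) a2
    | succ n ih =>
      intro i δ a1 a2
      rcases le_or_gt δb δ with h | h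
      · exact hbase i δ h a2
      · have hδ : 0 < δ := lt_of_lt_of_le (by positivity) a1
        refine hstep i δ hδ h fun l D b1 b2 => ih l D ?_ b2
        refine le_trans ?_ b1
        have : δb / 2 ^ n = 2 * (δb / 2 ^ (n + 1)) := by
          rw [pow_succ]
          field_simp
        rw [this]
        linarith
  refine ⟨δ₁, hδ₁, K, hK, fun i δ hδ hδ' => ?_⟩
  obtain ⟨n, hn⟩ := exists_pow_lt_of_lt_one (div_pos hδ hδb) (by norm_num : (1 / 2 : ℝ) < 1)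
  refine VT_mono (hall n i δ ?_ hδ') hbβ hδ (hδ'.trans hδ₁1) (by linarith)
  rw [lt_div_iff₀ hδb, one_div, inv_pow] at hn
  rw [div_eq_inv_mul]
  exact hn.le

end Pool.Agent.H894.BT207
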