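import Pool.Agent.H207.BT.Stm2
import Pool.Agent.H894.BT207.Ar

/-! Project BT: one pulling back step of the recursion. -/

set_option autoImplicit false

open Topology Filter Metric Set

namespace Pool.Agent.H894.BT207

open Pool.Agent.H211.HY Pool.Agent.H207.BT

/-- the assertion of `S_PULL` -/
def PB {k : ℕ} (f : ℕ → (Fin k → ℂ) → ℂ → ℂ) (z : ℕ → ℂ) (x : ℕ → ℝ) (ρ C K₀ θ r₀ : ℝ)
    (N₀ : ℕ) : Prop :=
  ∀ (δ : ℝ) (N : ℕ), 0 < δ → δ ≤ r₀ →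
        N₀ ≤ N → ∑ n ∈ Finset.range N, δ * ‖DD f z n‖ / x n ≤ θ →
        ∀ (u : (Fin k → ℂ) → ℂ) (r Λ : ℝ), 0 < r → 0 ≤ Λ → K₀ * r ≤ δ →
          K₀ * Λ * r ≤ δ * ‖DD f z N‖ →
          (∀ s ∈ ball (0 : Fin k → ℂ) r, ∀ s' ∈ ball (0 : Fin k → ℂ) r,
            ‖u s - u s'‖ ≤ Λ * ‖s - s'‖) →
          K₀ * ‖u 0 - z N‖ ≤ δ * ‖DD f z N‖ →
          ∃ w : (Fin k → ℂ) → ℂ,
            (∀ s ∈ ball (0 : Fin k → ℂ) r, ∀ s' ∈ ball (0 : Fin k → ℂ) r,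
              ‖w s - w s'‖ ≤ (K₀ + K₀ * Λ / ‖DD f z N‖) * ‖s - s'‖) ∧
            ‖u 0 - z N‖ ≤ K₀ * ‖DD f z N‖ * ‖w 0 - z 0‖ ∧
            ‖DD f z N‖ * ‖w 0 - z 0‖ ≤ K₀ * ‖u 0 - z N‖ ∧
            ∀ s ∈ ball (0 : Fin k → ℂ) r, YY f w N s = u s ∧
              ∀ n < N, ‖YY f w n s - z n‖ < ρ ∧ ‖s‖ + ‖YY f w n s - z n‖ ≤ x n / (2 * C)

theorem PB.mono {k : ℕ} {f : ℕ → (Fin k → ℂ) → ℂ → ℂ} {z : ℕ → ℂ} {x : ℕ → ℝ}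
    {ρ C K₀ θ r₀ K₀' θ' r₀' : ℝ} {N₀ N₀' : ℕ} (h : PB f z x ρ C K₀ θ r₀ N₀) (hK : K₀ ≤ K₀')
    (hθ : θ' ≤ θ) (hr : r₀' ≤ r₀) (hN : N₀ ≤ N₀') : PB f z x ρ C K₀' θ' r₀' N₀' := by
  intro δ N hδ hδr hNN hS u r Λ hr0 hΛ h1 h2 h3 h4
  obtain ⟨w, w1, w2, w3, w4⟩ := h δ N hδ (hδr.trans hr) (hN.trans hNN) (hS.trans hθ) u r Λ hr0 hΛ
    ((mul_le_mul_of_nonneg_right hK hr0.le).trans h1)
    ((mul_le_mul_of_nonneg_right (mul_le_mul_of_nonneg_right hK hΛ) hr0.le).trans h2) h3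
    ((mul_le_mul_of_nonneg_right hK (norm_nonneg _)).trans h4)
  refine ⟨w, ?_, ?_, ?_, w4⟩
  · intro s hs s' hs'
    refine (w1 s hs s' hs').trans (mul_le_mul_of_nonneg_right ?_ (norm_nonneg _))
    refine add_le_add hK ?_
    exact div_le_div_of_nonneg_right (mul_le_mul_of_nonneg_right hK hΛ) (norm_nonneg _)
  · refine w2.trans ?_
    exact mul_le_mul_of_nonneg_right (mul_le_mul_of_nonneg_right hK (norm_nonneg _)) (norm_nonneg _)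
  · exact w3.trans (mul_le_mul_of_nonneg_right hK (norm_nonneg _))

theorem pos_lower {k : ℕ} (g : Fin k → ℝ) (hg : ∀ i, 0 < g i) : ∃ a > (0 : ℝ), ∀ i, a ≤ g i := by
  have h0 : 0 ≤ ∑ j, 1 / g j := Finset.sum_nonneg fun j _ => by have := hg j; positivity
  refine ⟨1 / (1 + ∑ j, 1 / g j), by positivity, fun i => ?_⟩
  have h1 : 1 / g i ≤ ∑ j, 1 / g j :=
    Finset.single_le_sum (f := fun j => 1 / g j) (fun j _ => by have := hg j; positivity)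
      (Finset.mem_univ i)
  rw [div_le_iff₀ (by positivity)]
  have h2 : g i * (1 / g i) = 1 := by field_simp [(hg i).ne']
  nlinarith [hg i]

theorem upper {k : ℕ} (g : Fin k → ℝ) : ∃ a ≥ (1 : ℝ), ∀ i, g i ≤ a := by
  have h0 : 0 ≤ ∑ j, |g j| := Finset.sum_nonneg fun j _ => abs_nonneg _
  refine ⟨1 + ∑ j, |g j|, by linarith, fun i => ?_⟩
  have h1 : |g i| ≤ ∑ j, |g j| :=
    Finset.single_le_sum (f := fun j => |g j|) (fun j _ => abs_nonneg _) (Finset.mem_univ i)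
  have := le_abs_self (g i)
  linarith

theorem uPB (h1 : S_PULL) {k : ℕ} (f : Fin k → ℕ → (Fin k → ℂ) → ℂ → ℂ)
    (v : Fin k → (Fin k → ℂ) → ℂ) (z : Fin k → ℕ → ℂ) (x : Fin k → ℕ → ℝ) (ρ C c μ : ℝ)
    (κ : Fin k → ℂ) (hg : ∀ i, Good i (f i) (v i) (z i) (x i) ρ C c μ (κ i)) :
    ∃ K₀ ≥ (1 : ℝ), ∃ θ > (0 : ℝ), ∃ r₀ > (0 : ℝ), ∃ N₀ : ℕ,
      ∀ i, PB (f i) (z i) (x i) ρ C K₀ θ r₀ N₀ := by
  choose K hK θ hθ r hr N hN using fun i => h1 k i (f i) (v i) (z i) (x i) ρ C c μ (κ i) (hg i)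
  obtain ⟨K₀, hK₀, hK₁⟩ := upper K
  obtain ⟨θ₀, hθ₀, hθ₁⟩ := pos_lower θ hθ
  obtain ⟨r₀, hr₀, hr₁⟩ := pos_lower r hr
  refine ⟨K₀, hK₀, θ₀, hθ₀, r₀, hr₀, ∑ j, N j, fun i => ?_⟩
  exact PB.mono (hN i) (hK₁ i) (hθ₁ i) (hr₁ i)
    (Finset.single_le_sum (f := N) (fun j _ => Nat.zero_le _) (Finset.mem_univ i))

/-- one pulling back step -/
theorem pullVT {k : ℕ} {f : Fin k → ℕ → (Fin k → ℂ) → ℂ → ℂ}
    {z : Fin k → ℕ → ℂ} {x : Fin k → ℕ → ℝ} {ρ C K₀ θ r₀ b K δ δ' Λ : ℝ} {N₀ N : ℕ}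
    {RP : Fin k → ℕ → (Fin k → ℂ) → ℂ → Prop} {i : Fin k}
    (hP : PB (f i) (z i) (x i) ρ C K₀ θ r₀ N₀)
    (tran : ∀ (i : Fin k) (N : ℕ) (s : Fin k → ℂ) (w : (Fin k → ℂ) → ℂ), ‖s‖ < ρ →
      (∀ n < N, ‖YY (f i) w n s - z i n‖ < ρ ∧
        ‖s‖ + ‖YY (f i) w n s - z i n‖ ≤ x i n / (2 * C)) →
      RP i N s (YY (f i) w N s) → RP i 0 s (w s))
    (hK₀ : 1 ≤ K₀) (hδ : 0 < δ) (hδ' : 0 < δ') (hδδ : δ' ≤ δ) (hr₀ : δ' ≤ r₀) (hN : N₀ ≤ N)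
    (hS : ∑ n ∈ Finset.range N, δ' * ‖DD (f i) (z i) n‖ / x i n ≤ θ) (hK : 0 < K)
    (hΛ : 0 ≤ Λ) (u : (Fin k → ℂ) → ℂ) (hp : 0 < ‖DD (f i) (z i) N‖)
    (h1 : K₀ * (δ ^ (1 + b) / K) ≤ δ') (h2 : K₀ * Λ * (δ ^ (1 + b) / K) ≤ δ' * ‖DD (f i) (z i) N‖)
    (h3 : ∀ s ∈ ball (0 : Fin k → ℂ) (δ ^ (1 + b) / K), ∀ s' ∈ ball (0 : Fin k → ℂ)
      (δ ^ (1 + b) / K), ‖u s - u s'‖ ≤ Λ * ‖s - s'‖)
    (h4 : K₀ * ‖u 0 - z i N‖ ≤ δ' * ‖DD (f i) (z i) N‖)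
    (h5 : K₀ + K₀ * Λ / ‖DD (f i) (z i) N‖ ≤ K)
    (h6 : δ ^ (1 + b) * (K₀ * ‖DD (f i) (z i) N‖) ≤ ‖u 0 - z i N‖)
    (h7 : ∀ s ∈ ball (0 : Fin k → ℂ) (δ ^ (1 + b) / K), RP i N s (u s))
    (h8 : δ ^ (1 + b) / K ≤ ρ) : VT z RP b K i δ := by
  have hd : 0 < δ ^ (1 + b) := Real.rpow_pos_of_pos hδ _
  obtain ⟨w, w1, w2, w3, w4⟩ := hP δ' N hδ' hr₀ hN hS u (δ ^ (1 + b) / K) Λ (by positivity) hΛ
    h1 h2 h3 h4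
  refine ⟨w, ?_, ?_, ?_, ?_⟩
  · have e1 : K₀ * ‖DD (f i) (z i) N‖ * δ ^ (1 + b) ≤ K₀ * ‖DD (f i) (z i) N‖ * ‖w 0 - z i 0‖ := by
      linarith [h6, w2]
    exact le_of_mul_le_mul_left e1 (by positivity)
  · have e1 : ‖DD (f i) (z i) N‖ * ‖w 0 - z i 0‖ ≤ ‖DD (f i) (z i) N‖ * δ' := by
      linarith [w3, h4]
    exact (le_of_mul_le_mul_left e1 hp).trans hδδ
  · intro s hs s' hs'
    exact (w1 s hs s' hs').trans (mul_le_mul_of_nonneg_right h5 (norm_nonneg _))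
  · intro s hs
    obtain ⟨a1, a2⟩ := w4 s hs
    refine tran i N s w ?_ a2 ?_
    · rw [mem_ball_zero_iff] at hs
      exact lt_of_lt_of_le hs h8
    · rw [a1]
      exact h7 s hs

theorem VT_mono {k : ℕ} {z : Fin k → ℕ → ℂ} {RP : Fin k → ℕ → (Fin k → ℂ) → ℂ → Prop}
    {b β K δ : ℝ} {i : Fin k} (h : VT z RP b K i δ) (hb : b ≤ β) (hδ : 0 < δ) (hδ1 : δ ≤ 1)
    (hK : 0 < K) : VT z RP β K i δ := by
  obtain ⟨w, w1, w2, w3, w4⟩ := h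
  have e : δ ^ (1 + β) ≤ δ ^ (1 + b) :=
    Real.rpow_le_rpow_of_exponent_ge hδ hδ1 (by linarith)
  have e1 : ball (0 : Fin k → ℂ) (δ ^ (1 + β) / K) ⊆ ball 0 (δ ^ (1 + b) / K) :=
    ball_subset_ball (div_le_div_of_nonneg_right e hK.le)
  exact ⟨w, e.trans w1, w2, fun s hs s' hs' => w3 s (e1 hs) s' (e1 hs'), fun s hs => w4 s (e1 hs)⟩

theorem growth {k : ℕ} {i : Fin k} {f : ℕ → (Fin k → ℂ) → ℂ → ℂ} {v : (Fin k → ℂ) → ℂ} {z : ℕ → ℂ}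
    {x : ℕ → ℝ} {ρ C c μ : ℝ} {κ : ℂ} (h : Good i f v z x ρ C c μ κ) :
    DD f z 0 = 1 ∧ (∀ n, ‖DD f z (n + 1)‖ ≤ C * x n * ‖DD f z n‖) ∧
      (∀ n, ‖DD f z n‖ ≤ (C + 1) ^ n) := by
  have a1 : ∀ n, ‖DD f z (n + 1)‖ ≤ C * x n * ‖DD f z n‖ := by
    intro n
    have : DD f z (n + 1) = DD f z n * deriv (f n 0) (z n) := by
      rw [DD, Finset.prod_range_succ, ← DD]
    rw [this, norm_mul, mul_comm]
    exact mul_le_mul_of_nonneg_right (h.dx n).2 (norm_nonneg _)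
  refine ⟨by simp [DD], a1, fun n => ?_⟩
  induction n with
  | zero => simp [DD]
  | succ n ih =>
    refine (a1 n).trans ?_
    have hC := h.C1
    have hx := h.xx n
    have e1 : C * x n ≤ C + 1 := by
      have := mul_le_mul_of_nonneg_left hx.2 (by linarith : (0 : ℝ) ≤ C)
      linarith
    rw [pow_succ, mul_comm ((C + 1) ^ n)]
    exact mul_le_mul e1 ih (norm_nonneg _) (by linarith)

theorem Rle {k : ℕ} {i : Fin k} {f : ℕ → (Fin k → ℂ) → ℂ → ℂ} {v : (Fin k → ℂ) → ℂ} {z : ℕ → ℂ}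
    {x : ℕ → ℝ} {ρ C c μ : ℝ} {κ : ℂ} (h : Good i f v z x ρ C c μ κ) {θ δ' : ℝ} {N : ℕ}
    (hθ : C * θ ≤ 1) (hδ : 0 < δ') (hδ1 : δ' ≤ 1)
    (hS : ∑ n ∈ Finset.range N, δ' * ‖DD f z n‖ / x n ≤ θ) : δ' * ‖DD f z N‖ ≤ 1 := by
  obtain ⟨g0, g1, g2⟩ := growth h
  rcases N with _ | n
  · rw [g0]
    simpa using hδ1
  · have hx := h.xx n
    have hC := h.C1
    have e1 : δ' * ‖DD f z n‖ / x n ≤ θ := by
      refine le_trans ?_ hS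
      refine Finset.single_le_sum (f := fun n => δ' * ‖DD f z n‖ / x n) (fun j _ => ?_)
        (Finset.mem_range.2 (Nat.lt_succ_self n))
      have := (h.xx j).1
      positivity
    rw [div_le_iff₀ hx.1] at e1
    have hθ0 : 0 ≤ θ := by
      have : 0 ≤ θ * x n := le_trans (by positivity) e1
      exact nonneg_of_mul_nonneg_left this hx.1
    calc δ' * ‖DD f z (n + 1)‖ ≤ δ' * (C * x n * ‖DD f z n‖) :=
          mul_le_mul_of_nonneg_left (g1 n) hδ.le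
      _ = C * x n * (δ' * ‖DD f z n‖) := by ring
      _ ≤ C * x n * (θ * x n) := mul_le_mul_of_nonneg_left e1 (by nlinarith [hx.1])
      _ = C * θ * (x n * x n) := by ring
      _ ≤ 1 * 1 := mul_le_mul hθ (mul_le_one₀ hx.2 hx.1.le hx.2) (by nlinarith [hx.1]) zero_le_one
      _ = 1 := one_mul 1

end Pool.Agent.H894.BT207
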