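import Pool.Agent.H894.BT207.VT1

/-! Project BT: the steps of the recursion. -/

set_option autoImplicit false

open Topology Filter Metric Set

namespace Pool.Agent.H894.BT207

open Pool.Agent.H211.HY Pool.Agent.H207.BT

theorem split_pow {b δ : ℝ} (hδ : 0 < δ) :
    δ ^ (1 + b) = δ ^ (7 * b / 8) * δ ^ (1 + b / 8) := by
  rw [← Real.rpow_add hδ]
  congr 1
  ring

/-- the step with a far target -/
theorem step_far {k : ℕ} {f : Fin k → ℕ → (Fin k → ℂ) → ℂ → ℂ}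
    {z : Fin k → ℕ → ℂ} {x : Fin k → ℕ → ℝ} {ρ C K₀ θ r₀ b K δ δ' ε₀ ρ₁ L c : ℝ} {N₀ N : ℕ}
    {RP : Fin k → ℕ → (Fin k → ℂ) → ℂ → Prop} {i : Fin k}
    (hP : PB (f i) (z i) (x i) ρ C K₀ θ r₀ N₀)
    (tran : ∀ (i : Fin k) (N : ℕ) (s : Fin k → ℂ) (w : (Fin k → ℂ) → ℂ), ‖s‖ < ρ →
      (∀ n < N, ‖YY (f i) w n s - z i n‖ < ρ ∧
        ‖s‖ + ‖YY (f i) w n s - z i n‖ ≤ x i n / (2 * C)) →
      RP i N s (YY (f i) w N s) → RP i 0 s (w s))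
    (hK₀ : 1 ≤ K₀) (hδ : 0 < δ) (hδ1 : δ ≤ 1) (hb : 0 < b) (hδ' : 0 < δ') (hδδ : δ' ≤ δ)
    (hlow : δ ^ (1 + b / 8) ≤ δ') (hr₀ : δ' ≤ r₀) (hN : N₀ ≤ N)
    (hS : ∑ n ∈ Finset.range N, δ' * ‖DD (f i) (z i) n‖ / x i n ≤ θ) (hK : 1 ≤ K)
    (hL : 0 ≤ L) (hc : 0 < c) (u : (Fin k → ℂ) → ℂ) (hp : c ≤ ‖DD (f i) (z i) N‖)
    (hε₀ : 0 < ε₀) (hR : ε₀ ≤ δ' * ‖DD (f i) (z i) N‖) (hR1 : δ' * ‖DD (f i) (z i) N‖ ≤ 1)
    (u1 : ε₀ / K₀ / 4 ≤ ‖u 0 - z i N‖) (u2 : ‖u 0 - z i N‖ ≤ ε₀ / K₀) (u3 : IsT u ρ₁ L)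
    (u4 : ∀ s ∈ ball (0 : Fin k → ℂ) ρ₁, RP i N s (u s))
    (c1 : K₀ * δ ^ (7 * b / 8) ≤ ε₀ / K₀ / 4) (c1' : K₀ * δ ^ (7 * b / 8) ≤ 1)
    (c2 : K₀ * L * δ ≤ ε₀) (c3 : δ ≤ ρ₁)
    (c4 : δ ≤ ρ) (c5 : K₀ + K₀ * L / c ≤ K) : VT z RP b K i δ := by
  have hd : 0 < δ ^ (1 + b) := Real.rpow_pos_of_pos hδ _
  have hd1 : δ ^ (1 + b) ≤ δ := by
    have := Real.rpow_le_rpow_of_exponent_ge hδ hδ1 (by linarith : (1 : ℝ) ≤ 1 + b)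
    rwa [Real.rpow_one] at this
  have hK0 : 0 < K := by linarith
  have hr1 : δ ^ (1 + b) / K ≤ δ ^ (1 + b) := div_le_self hd.le hK
  have hr2 : δ ^ (1 + b) / K ≤ δ := hr1.trans hd1
  have hp0 : 0 < ‖DD (f i) (z i) N‖ := hc.trans_le hp
  have hh : 0 < δ ^ (7 * b / 8) := Real.rpow_pos_of_pos hδ _
  have hh2 : 0 < δ ^ (1 + b / 8) := Real.rpow_pos_of_pos hδ _
  have hu2 : K₀ * ‖u 0 - z i N‖ ≤ ε₀ := by
    have := mul_le_mul_of_nonneg_left u2 (by linarith : 0 ≤ K₀)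
    rwa [mul_div_cancel₀ _ (by linarith : K₀ ≠ 0)] at this
  refine pullVT (Λ := L) hP tran hK₀ hδ hδ' hδδ hr₀ hN hS hK0 hL u hp0 ?_ ?_ ?_ ?_ ?_ ?_ ?_ ?_
  · calc K₀ * (δ ^ (1 + b) / K) ≤ K₀ * δ ^ (1 + b) := mul_le_mul_of_nonneg_left hr1 (by linarith)
      _ = K₀ * δ ^ (7 * b / 8) * δ ^ (1 + b / 8) := by rw [split_pow hδ]; ring
      _ ≤ 1 * δ ^ (1 + b / 8) := mul_le_mul_of_nonneg_right c1' hh2.le
      _ ≤ δ' := by rw [one_mul]; exact hlow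
  · refine le_trans (mul_le_mul_of_nonneg_left hr2 (by positivity)) (c2.trans hR)
  · intro s hs s' hs'
    exact u3 s (ball_subset_ball (hr2.trans c3) hs) s' (ball_subset_ball (hr2.trans c3) hs')
  · exact hu2.trans hR
  · refine le_trans (add_le_add le_rfl ?_) c5
    exact div_le_div_of_nonneg_left (by positivity) hc hp
  · refine le_trans ?_ u1
    refine le_trans ?_ c1
    have e2 : δ ^ (1 + b / 8) * ‖DD (f i) (z i) N‖ ≤ 1 :=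
      (mul_le_mul_of_nonneg_right hlow hp0.le).trans hR1
    calc δ ^ (1 + b) * (K₀ * ‖DD (f i) (z i) N‖) =
          K₀ * δ ^ (7 * b / 8) * (δ ^ (1 + b / 8) * ‖DD (f i) (z i) N‖) := by
            rw [split_pow hδ]; ring
      _ ≤ K₀ * δ ^ (7 * b / 8) * 1 := mul_le_mul_of_nonneg_left e2 (by positivity)
      _ = K₀ * δ ^ (7 * b / 8) := mul_one _
  · intro s hs
    exact u4 s (ball_subset_ball (hr2.trans c3) hs)
  · exact hr2.trans c4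

/-- the step with a close target -/
theorem step_close {k : ℕ} {f : Fin k → ℕ → (Fin k → ℂ) → ℂ → ℂ}
    {z : Fin k → ℕ → ℂ} {x : Fin k → ℕ → ℝ} {ρ C K₀ θ r₀ b K δ δ' B D η : ℝ} {N₀ N : ℕ}
    {RP : Fin k → ℕ → (Fin k → ℂ) → ℂ → Prop} {i l : Fin k} {m : ℕ}
    (hP : PB (f i) (z i) (x i) ρ C K₀ θ r₀ N₀)
    (tran : ∀ (i : Fin k) (N : ℕ) (s : Fin k → ℂ) (w : (Fin k → ℂ) → ℂ), ‖s‖ < ρ →
      (∀ n < N, ‖YY (f i) w n s - z i n‖ < ρ ∧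
        ‖s‖ + ‖YY (f i) w n s - z i n‖ ≤ x i n / (2 * C)) →
      RP i N s (YY (f i) w N s) → RP i 0 s (w s))
    (close : ∀ (w : (Fin k → ℂ) → ℂ) (y r K : ℝ), 0 < y → y ≤ η →
      y ^ (m + 1) = ‖w 0 - z l 0‖ → 0 < r →
      1 ≤ K → B * K * r ≤ y ^ (m + 1) →
      (∀ s ∈ ball (0 : Fin k → ℂ) r, ∀ s' ∈ ball (0 : Fin k → ℂ) r,
        ‖w s - w s'‖ ≤ K * ‖s - s'‖) →
      (∀ s ∈ ball (0 : Fin k → ℂ) r, RP l 0 s (w s)) →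
      ∃ q : (Fin k → ℂ) → ℂ, ‖q 0 - z i N‖ ≤ B * (y + x i N) ∧ y ≤ B * ‖q 0 - z i N‖ ∧
        (∀ s ∈ ball (0 : Fin k → ℂ) r, ∀ s' ∈ ball (0 : Fin k → ℂ) r,
          y ^ m * ‖q s - q s'‖ ≤ B * K * ‖s - s'‖) ∧
        ∀ s ∈ ball (0 : Fin k → ℂ) r, RP i N s (q s))
    (hK₀ : 1 ≤ K₀) (hB : 1 ≤ B) (hδ : 0 < δ) (hδ1 : δ ≤ 1) (hb : 0 < b) (hδ' : 0 < δ')
    (hδδ : δ' ≤ δ)
    (hlow : δ ^ (1 + b / 8) ≤ δ') (hr₀ : δ' ≤ r₀) (hN : N₀ ≤ N)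
    (hS : ∑ n ∈ Finset.range N, δ' * ‖DD (f i) (z i) n‖ / x i n ≤ θ) (hK : 2 * K₀ ≤ K)
    (hp : 0 < ‖DD (f i) (z i) N‖)
    (hx : 2 * K₀ * B * x i N ≤ δ' * ‖DD (f i) (z i) N‖) (hRη : δ' * ‖DD (f i) (z i) N‖ ≤ η)
    (hVT : VT z RP b K l D) (hD : (2 + K₀ * B) * δ ≤ D)
    (hy : ∀ y > 0, D ^ (1 + b) ≤ y ^ (m + 1) → y ^ (m + 1) ≤ D →
      y ≤ δ' * ‖DD (f i) (z i) N‖ / (2 * K₀ * B) ∧ 2 * K₀ * B ≤ y ^ m * ‖DD (f i) (z i) N‖ ∧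
          δ ^ (1 + b) * (B * K₀ * ‖DD (f i) (z i) N‖) ≤ y)
    (c1' : K₀ * δ ^ (7 * b / 8) ≤ 1) (c4 : δ ≤ ρ) : VT z RP b K i δ := by
  have hd : 0 < δ ^ (1 + b) := Real.rpow_pos_of_pos hδ _
  have hd1 : δ ^ (1 + b) ≤ δ := by
    have := Real.rpow_le_rpow_of_exponent_ge hδ hδ1 (by linarith : (1 : ℝ) ≤ 1 + b)
    rwa [Real.rpow_one] at this
  have hK1 : 1 ≤ K := by linarith
  have hK0 : 0 < K := by linarith
  have hr1 : δ ^ (1 + b) / K ≤ δ ^ (1 + b) := div_le_self hd.le hK1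
  have hr2 : δ ^ (1 + b) / K ≤ δ := hr1.trans hd1
  have hh : 0 < δ ^ (7 * b / 8) := Real.rpow_pos_of_pos hδ _
  have hh2 : 0 < δ ^ (1 + b / 8) := Real.rpow_pos_of_pos hδ _
  have hKB : 1 ≤ K₀ * B := by nlinarith
  have hD0 : 0 < D := lt_of_lt_of_le (by positivity) hD
  have hDδ : δ ≤ D := by
    refine le_trans ?_ hD
    nlinarith
  have hDp : 0 < D ^ (1 + b) := Real.rpow_pos_of_pos hD0 _
  obtain ⟨w, w1, w2, w3, w4⟩ := hVT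
  set y : ℝ := ‖w 0 - z l 0‖ ^ (((m + 1 : ℕ) : ℝ)⁻¹) with hydef
  have hw0 : 0 < ‖w 0 - z l 0‖ := hDp.trans_le w1
  have hy0 : 0 < y := Real.rpow_pos_of_pos hw0 _
  have hym : y ^ (m + 1) = ‖w 0 - z l 0‖ :=
    Real.rpow_inv_natCast_pow hw0.le (Nat.succ_ne_zero m)
  obtain ⟨y1, y2, y3⟩ := hy y hy0 (by rw [hym]; exact w1) (by rw [hym]; exact w2)
  have hsub : ball (0 : Fin k → ℂ) (δ ^ (1 + b) / K) ⊆ ball 0 (D ^ (1 + b) / K) :=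
    ball_subset_ball (div_le_div_of_nonneg_right
      (Real.rpow_le_rpow hδ.le hDδ (by linarith)) hK0.le)
  have hBD : B * δ ^ (1 + b) ≤ D ^ (1 + b) := by
    have e1 : ((2 + K₀ * B) * δ) ^ (1 + b) ≤ D ^ (1 + b) :=
      Real.rpow_le_rpow (by positivity) hD (by linarith)
    refine le_trans ?_ e1
    rw [Real.mul_rpow (by positivity) hδ.le]
    refine mul_le_mul_of_nonneg_right ?_ hd.le
    have e2 : (2 + K₀ * B) ^ (1 : ℝ) ≤ (2 + K₀ * B) ^ (1 + b) :=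
      Real.rpow_le_rpow_of_exponent_le (by linarith) (by linarith)
    rw [Real.rpow_one] at e2
    refine le_trans ?_ e2
    nlinarith
  have hR0 : 0 < δ' * ‖DD (f i) (z i) N‖ := by positivity
  have h2KB : 1 ≤ 2 * K₀ * B := by nlinarith
  obtain ⟨q, q1, q2, q3, q4⟩ := close w y (δ ^ (1 + b) / K) K hy0
    (y1.trans ((div_le_self hR0.le h2KB).trans hRη)) hym (by positivity) hK1
    (by
      rw [hym]
      refine le_trans ?_ w1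
      have : B * K * (δ ^ (1 + b) / K) = B * δ ^ (1 + b) := by field_simp
      rw [this]
      exact hBD)
    (fun s hs s' hs' => w3 s (hsub hs) s' (hsub hs')) (fun s hs => w4 s (hsub hs))
  have hym0 : 0 < y ^ m := pow_pos hy0 m
  have hB0 : 0 < B := by linarith
  have hK₀0 : 0 < K₀ := by linarith
  have hΛ : 0 ≤ B * K / y ^ m := by positivity
  refine pullVT (Λ := B * K / y ^ m) hP tran hK₀ hδ hδ' hδδ hr₀ hN hS hK0 hΛ q hp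
    ?_ ?_ ?_ ?_ ?_ ?_ q4 (hr2.trans c4)
  · calc K₀ * (δ ^ (1 + b) / K) ≤ K₀ * δ ^ (1 + b) := mul_le_mul_of_nonneg_left hr1 (by linarith)
      _ = K₀ * δ ^ (7 * b / 8) * δ ^ (1 + b / 8) := by rw [split_pow hδ]; ring
      _ ≤ 1 * δ ^ (1 + b / 8) := mul_le_mul_of_nonneg_right c1' hh2.le
      _ ≤ δ' := by rw [one_mul]; exact hlow
  · have e1 : K₀ * (B * K / y ^ m) * (δ ^ (1 + b) / K) = K₀ * B * δ ^ (1 + b) / y ^ m := by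
      field_simp
    rw [e1, div_le_iff₀ hym0]
    have e2 : δ ^ (1 + b) ≤ δ' := by
      refine le_trans ?_ hlow
      exact Real.rpow_le_rpow_of_exponent_ge hδ hδ1 (by linarith)
    have e3 : δ' * (2 * K₀ * B) ≤ δ' * (y ^ m * ‖DD (f i) (z i) N‖) :=
      mul_le_mul_of_nonneg_left y2 hδ'.le
    have e4 : K₀ * B * δ ^ (1 + b) ≤ K₀ * B * δ' := mul_le_mul_of_nonneg_left e2 (by positivity)
    have e5 : 0 ≤ K₀ * B * δ' := by positivity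
    linarith
  · intro s hs s' hs'
    have := q3 s hs s' hs'
    rw [div_mul_eq_mul_div, le_div_iff₀ hym0]
    linarith
  · have e1 : x i N ≤ δ' * ‖DD (f i) (z i) N‖ / (2 * K₀ * B) := by
      rw [le_div_iff₀ (by positivity)]
      linarith
    have e2 : K₀ * (B * (δ' * ‖DD (f i) (z i) N‖ / (2 * K₀ * B) +
        δ' * ‖DD (f i) (z i) N‖ / (2 * K₀ * B))) = δ' * ‖DD (f i) (z i) N‖ := by
      field_simp
      ring
    rw [← e2]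
    refine mul_le_mul_of_nonneg_left (q1.trans ?_) hK₀0.le
    exact mul_le_mul_of_nonneg_left (add_le_add y1 e1) hB0.le
  · have e1 : K₀ * (B * K / y ^ m) / ‖DD (f i) (z i) N‖ =
        K₀ * B * K / (y ^ m * ‖DD (f i) (z i) N‖) := by
      field_simp
    have e2 : K₀ * B * K / (y ^ m * ‖DD (f i) (z i) N‖) ≤ K / 2 := by
      rw [div_le_iff₀ (by positivity)]
      have := mul_le_mul_of_nonneg_left y2 (by linarith : 0 ≤ K / 2)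
      linarith
    rw [e1]
    linarith
  · have e1 : B * (δ ^ (1 + b) * (K₀ * ‖DD (f i) (z i) N‖)) ≤ B * ‖q 0 - z i N‖ := by
      linarith
    exact le_of_mul_le_mul_left e1 hB0

end Pool.Agent.H894.BT207
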